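import Pool.Agent.MVD.StmtsLoc

/-!
# Squad MVD, row TRE: `EF` for all lengths gives `E32`
-/

namespace Pool.Agent.MVD.H26

open Pool.Agent.Helper14_MV Pool.Agent.Helper2_MV Pool.Agent.MVD

theorem tre : TreStmt := by
  intro β hZ hE p c q x y hyc hyp hyq hxq hM h3
  by_cases hxy : x = y
  · subst hxy
    exact RR.refl _
  obtain ⟨c1, c2, rfl⟩ := List.append_of_mem hyc
  have e1 : p ++ (c1 ++ y :: c2 ++ x :: y :: q) = (p ++ c1) ++ y :: (c2 ++ x :: y :: q) := by
    simp [List.append_assoc]
  have e2 : p ++ (c1 ++ y :: c2 ++ y :: x :: q) = (p ++ c1) ++ y :: (c2 ++ y :: x :: q) := by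
    simp [List.append_assoc]
  rw [e1, e2]
  rw [e1] at hM h3
  by_cases hx : x ∈ c2
  · obtain ⟨d1, d2, rfl⟩ := List.append_of_mem hx
    have hmult : Mult d1 ((p ++ c1) ++ y :: (d1 ++ x :: (d2 ++ y :: x :: q))) := by
      intro a ha
      have h1 := hM a (by simp [ha])
      have h2 : List.Perm ((p ++ c1) ++ y :: (d1 ++ x :: (d2 ++ y :: x :: q)))
          ((p ++ c1) ++ y :: (d1 ++ x :: d2 ++ x :: y :: q)) := by
        apply List.Perm.append_left
        apply List.Perm.cons
        rw [List.append_assoc]
        apply List.Perm.append_left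
        rw [List.cons_append]
        apply List.Perm.cons
        apply List.Perm.append_left
        exact List.Perm.swap x y q
      rw [h2.count_eq]
      exact h1
    have h := hZ (p ++ c1) d2 d1 q y x hmult
    have e3 : (p ++ c1) ++ y :: (d1 ++ x :: d2 ++ x :: y :: q) =
        (p ++ c1) ++ y :: (d1 ++ x :: (d2 ++ x :: y :: q)) := by simp [List.append_assoc]
    have e4 : (p ++ c1) ++ y :: (d1 ++ x :: d2 ++ y :: x :: q) =
        (p ++ c1) ++ y :: (d1 ++ x :: (d2 ++ y :: x :: q)) := by simp [List.append_assoc]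
    rw [e3, e4]
    exact h.symm
  · refine hE c2.length (p ++ c1) c2 q x y le_rfl ?_ ?_
    · intro a ha
      exact hM a (by simp [ha])
    · have h4 : ((p ++ c1) ++ y :: (c2 ++ x :: y :: q)).count x = (p ++ c1).count x + 1 := by
        have h5 : (y :: (c2 ++ x :: y :: q)).count x = 1 := by
          rw [List.count_cons_of_ne (fun h => hxy h.symm), List.count_append,
            List.count_cons_self, List.count_cons_of_ne (fun h => hxy h.symm),
            List.count_eq_zero_of_not_mem hx, List.count_eq_zero_of_not_mem hxq]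
        rw [List.count_append (l₁ := p ++ c1), h5]
      rw [h4] at h3
      omega

end Pool.Agent.MVD.H26
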